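import Pool.Agent.TH355.TG.Dist

set_option autoImplicit false
open N6ef48c04

namespace Pool.Agent.Results.MP_964892_co.DistanceAndTime

open Pool.Agent.TH355.TG

/-!
Fast capture, and capture from a distance. The starting files prove `c(G) = O(√n log n)` without a
bound for the duration of the game. Here `O(√n log n)` cops, from arbitrary starting vertices, catch
the robber within `O(D log log n)` rounds, where `D` is the diameter. More generally
`O(√(n / (k + 1)) log n)` cops get within distance `k` of the robber, in the same time. For the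
extremal distance `k` cop number Bonato, Chiniforooshan and Pralat had the lower bound
`(n / k) ^ (1/2 + o(1))` and an upper bound of order `n / k` up to logarithms.

Proof idea. The vertices are partitioned into at most `4 n / (k + 1)` cells of diameter at most `k`,
which are the ends of the game of the starting files (`W149.VD`). If a proportion `a` of the ends is
not yet covered, new cops can reduce it to `a ^ (5/4)` in `D` rounds, and their number decreases
like `a ^ (1/4)`; so `O(log log n)` windows of `D` rounds are enough.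
-/

/-- It is the turn of the cops, who are at `c`, the robber is at `r`: the cops can get within
distance `k` of the robber in at most `T` rounds. (For `k = 0` this is `CopsCatchWithin`.) -/
def Near {V : Type*} (G : SimpleGraph V) (k : ℕ) {m : ℕ} : ℕ → (Fin m → V) → V → Prop
  | 0, c, r => ∃ i, G.dist (c i) r ≤ k
  | T + 1, c, r => (∃ i, G.dist (c i) r ≤ k) ∨
      ∃ c' : Fin m → V, (∀ i, Step G (c i) (c' i)) ∧
        ((∃ i, G.dist (c' i) r ≤ k) ∨ ∀ r', Step G r r' → Near G k T c' r')

theorem near_of_win {V : Type*} (G : SimpleGraph V) (k : ℕ) {E : Type*} (cl : V → E)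
    (hcl : ∀ u v, cl u = cl v → G.dist u v ≤ k) {m : ℕ} (h : ℕ) :
    ∀ (c : Fin m → V) (r : V), Win (cellG G cl) (fun c x => ∃ i, cl (c i) = cl x) (h + 1) c r →
      ∀ r', Step G r r' → Near G k (h + 1) c r' := by
  induction h with
  | zero =>
    intro c r hw r' hr
    obtain ⟨c', hc', i, hi⟩ := hw r' hr
    exact Or.inr ⟨c', hc', Or.inl ⟨i, hcl _ _ hi⟩⟩
  | succ h ih =>
    intro c r hw r' hr
    obtain ⟨c', hc', hw'⟩ := hw r' hr
    exact Or.inr ⟨c', hc', Or.inr fun r'' hr' => ih c' r' hw' r'' hr'⟩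

theorem near_zero {V : Type*} (G : SimpleGraph V) (hG : G.Connected) {m : ℕ} (T : ℕ) :
    ∀ (c : Fin m → V) (r : V), Near G 0 T c r → CopsCatchWithin G m T c r := by
  have h0 : ∀ u v, G.dist u v ≤ 0 → u = v := fun u v h =>
    hG.dist_eq_zero_iff.1 (Nat.le_zero.1 h)
  induction T with
  | zero =>
    rintro c r ⟨i, hi⟩
    exact ⟨i, h0 _ _ hi⟩
  | succ T ih =>
    rintro c r (⟨i, hi⟩ | ⟨c', hc', ⟨i, hi⟩ | h⟩)
    · exact Or.inl ⟨i, h0 _ _ hi⟩
    · exact Or.inr ⟨c', hc', Or.inl ⟨i, h0 _ _ hi⟩⟩
    · exact Or.inr ⟨c', hc', Or.inr fun r' hr' => ih c' r' (h r' hr')⟩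

/-- Let `G` be a connected graph on `n` vertices whose distances are at most `D`, and let `k < n`.
Then some number `m ≤ 433 √(n / (k + 1)) (log n + 1)` of cops, from arbitrary starting vertices, can
get within distance `k` of the robber in at most `9 (log (log n + 1) + 1) D + 1` rounds.

In particular (`k = 0`) some number `m ≤ 433 √n (log n + 1)` of cops, from arbitrary starting
vertices, catches the robber in at most `9 (log (log n + 1) + 1) D + 1` rounds. -/
theorem result {V : Type*} [Fintype V] (G : SimpleGraph V) (hG : G.Connected) (D : ℕ)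
    (hD : ∀ u v, G.dist u v ≤ D) :
    (∀ k : ℕ, k < Fintype.card V → ∃ m T : ℕ,
      (m : ℝ) ≤ 433 * √((Fintype.card V : ℝ) / (k + 1)) * (Real.log (Fintype.card V) + 1) ∧
      (T : ℝ) ≤ 9 * (Real.log (Real.log (Fintype.card V) + 1) + 1) * D + 1 ∧
      ∀ (c : Fin m → V) (r : V), Near G k T c r) ∧
    ∃ m T : ℕ,
      (m : ℝ) ≤ 433 * √(Fintype.card V : ℝ) * (Real.log (Fintype.card V) + 1) ∧
      (T : ℝ) ≤ 9 * (Real.log (Real.log (Fintype.card V) + 1) + 1) * D + 1 ∧
      ∀ (c : Fin m → V) (r : V), CopsCatchWithin G m T c r := by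
  have hne : Nonempty V := hG.nonempty
  have hn : 1 ≤ Fintype.card V := Fintype.card_pos
  set n : ℕ := Fintype.card V with hndef
  have hn' : (1 : ℝ) ≤ n := by exact_mod_cast hn
  have hlogn : 0 ≤ Real.log n := Real.log_nonneg hn'
  set Λ : ℝ := Real.log n + 1 with hΛ
  have hΛ1 : 1 ≤ Λ := by linarith
  have main : ∀ k : ℕ, k < n → ∃ m T : ℕ,
      (m : ℝ) ≤ 433 * √((n : ℝ) / (k + 1)) * Λ ∧
      (T : ℝ) ≤ 9 * (Real.log Λ + 1) * D + 1 ∧
      ∀ (c : Fin m → V) (r : V), Near G k T c r := by
    intro k hk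
    obtain ⟨M, hM1, hM2⟩ := exists_centres G (k / 2)
    have hMne : M.Nonempty := by
      obtain ⟨m, hm, _⟩ := hM2 (Classical.arbitrary V)
      exact ⟨m, hm⟩
    have hNne : Nonempty M := hMne.to_subtype
    have hNn : M.card ≤ n := Finset.card_le_univ M
    have hN1 : 1 ≤ M.card := hMne.card_pos
    have hN4 : M.card * (k + 1) ≤ 4 * n := by
      rcases Nat.lt_or_ge M.card 2 with h | h
      · have : M.card = 1 := by omega
        rw [this]
        omega
      · have h1 := centres_card G hG (k / 2) M hM1 h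
        have h2 : k + 1 ≤ 4 * (k / 2 / 2 + 1) := by omega
        calc M.card * (k + 1) ≤ M.card * (4 * (k / 2 / 2 + 1)) := Nat.mul_le_mul_left _ h2
          _ = 4 * (M.card * (k / 2 / 2 + 1)) := by ring
          _ ≤ 4 * n := by omega
    choose f hf1 hf2 using hM2
    let cl : V → M := fun v => ⟨f v, hf1 v⟩
    have hcl : Function.Surjective cl := by
      rintro ⟨a, ha⟩
      refine ⟨a, Subtype.ext ?_⟩
      show f a = a
      by_contra hne
      have h1 := hM1 (f a) (hf1 a) a ha hne
      have h2 := hf2 a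
      omega
    have hcld : ∀ u v, cl u = cl v → G.dist u v ≤ k := by
      intro u v huv
      have h1 : f u = f v := congrArg Subtype.val huv
      have h2 := hf2 u
      have h3 := hf2 v
      rw [← h1] at h3
      have h4 := hG.dist_triangle (u := u) (v := f u) (w := v)
      rw [SimpleGraph.dist_comm (u := u) (v := f u)] at h4
      omega
    have hcard : Fintype.card M = M.card := Fintype.card_coe M
    set N : ℕ := M.card with hN
    have hN1' : (1 : ℝ) ≤ N := by exact_mod_cast hN1
    have hNn' : (N : ℝ) ≤ n := by exact_mod_cast hNn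
    set Y : ℝ := √((n : ℝ) / (k + 1)) with hY
    have hk1 : (k : ℝ) + 1 ≤ n := by exact_mod_cast hk
    have hk0 : (0 : ℝ) < (k : ℝ) + 1 := by positivity
    have hY1 : 1 ≤ Y := by
      apply Real.one_le_sqrt.2
      rw [le_div_iff₀ hk0]
      linarith
    have hsq : √(N : ℝ) ≤ 2 * Y := by
      have h1 : (N : ℝ) ≤ 2 ^ 2 * ((n : ℝ) / (k + 1)) := by
        rw [← mul_div_assoc, le_div_iff₀ hk0]
        have h2 : ((N * (k + 1) : ℕ) : ℝ) ≤ ((4 * n : ℕ) : ℝ) := by exact_mod_cast hN4
        push_cast at h2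
        linarith
      calc √(N : ℝ) ≤ √(2 ^ 2 * ((n : ℝ) / (k + 1))) := Real.sqrt_le_sqrt h1
        _ = 2 * Y := by rw [Real.sqrt_mul (by norm_num), Real.sqrt_sq (by norm_num)]
    have hlog : Real.log ((n : ℝ) * N * (N + 1)) ≤ 3 * Real.log n + 0.7 := by
      have h1 : (n : ℝ) * N * (N + 1) ≤ n * n * (2 * n) := by
        have h2 : (N : ℝ) + 1 ≤ 2 * n := by linarith
        have h3 : (n : ℝ) * N ≤ n * n := by nlinarith
        exact mul_le_mul h3 h2 (by positivity) (by positivity)
      have h2 := Real.log_le_log (by positivity) h1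
      have hn0 : (n : ℝ) ≠ 0 := by positivity
      have h4 : Real.log ((n : ℝ) * n * (2 * n)) = 3 * Real.log n + Real.log 2 := by
        rw [Real.log_mul (mul_ne_zero hn0 hn0) (mul_ne_zero two_ne_zero hn0),
          Real.log_mul hn0 hn0, Real.log_mul two_ne_zero hn0]
        ring
      rw [h4] at h2
      have h3 := Real.log_two_lt_d9
      linarith
    set m : ℕ := ⌈216 * Λ * (2 * Y)⌉₊ with hm
    have hm1 : 216 * Λ * (2 * Y) ≤ m := Nat.le_ceil _
    have hm2 : (m : ℝ) ≤ 216 * Λ * (2 * Y) + 1 := (Nat.ceil_lt_add_one (by positivity)).le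
    have hspec := windowsNo_spec n N hn (by
      calc N ≤ n := hNn
        _ ≤ n * (n + 1) := Nat.le_mul_of_pos_right _ (by omega)
        _ ≤ (windowsNo n + 1) * (n * (n + 1)) := Nat.le_mul_of_pos_left _ (by omega))
    have hwin : ∀ (c : Fin m → V) (r : V), Win (cellG G cl)
        (fun c x => ∃ i, cl (c i) = cl x) ((windowsNo n + 1) * D) c r := by
      intro c r
      refine cell_win G hG D hD cl hcl (windowsNo n) ?_ ?_ c r
      · rw [hcard]
        exact hspec.1
      · rw [hcard, Fintype.card_fin]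
        refine le_trans ?_ hm1
        apply mul_le_mul _ hsq (Real.sqrt_nonneg _) (by positivity)
        linarith
    have hwindows := windowsNo_le n hn
    refine ⟨m, (windowsNo n + 1) * D + 1, ?_, ?_, ?_⟩
    · nlinarith [mul_nonneg (sub_nonneg.2 hΛ1) (sub_nonneg.2 hY1)]
    · push_cast
      have hD0 : (0 : ℝ) ≤ D := Nat.cast_nonneg _
      have := mul_le_mul_of_nonneg_right hwindows hD0
      linarith
    · intro c r
      rcases Nat.eq_zero_or_pos ((windowsNo n + 1) * D) with h0 | h0
      · have h1 := hwin c r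
        rw [h0] at h1 ⊢
        obtain ⟨i, hi⟩ := h1
        exact Or.inl ⟨i, hcld _ _ hi⟩
      · obtain ⟨h, hh⟩ : ∃ h, (windowsNo n + 1) * D = h + 1 := ⟨_, (Nat.succ_pred_eq_of_pos h0).symm⟩
        have h1 := hwin c r
        rw [hh] at h1 ⊢
        refine Or.inr ⟨c, fun i => Or.inl rfl, Or.inr fun r' hr' => ?_⟩
        exact near_of_win G k cl hcld h c r h1 r' hr'
  refine ⟨main, ?_⟩
  obtain ⟨m, T, h1, h2, h3⟩ := main 0 (by omega)
  refine ⟨m, T, ?_, h2, fun c r => near_zero G hG T c r (h3 c r)⟩
  have h4 : (n : ℝ) / ((0 : ℕ) + 1) = n := by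
    push_cast
    rw [zero_add, div_one]
  rw [h4] at h1
  exact h1

end Pool.Agent.Results.MP_964892_co.DistanceAndTime
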