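import Pool.Agent.TH524.Mey.Cover

set_option autoImplicit false
open N6ef48c04

namespace Pool.Agent.Results.MP_964892_co.GuardedBalls

/-!
# Meyniel's bound for graphs whose balls of some radius are large

The entropy method of the starting files (`W149.VD`) is combined with cops who guard sets of
vertices. Such a set `W` costs `k` cops, and only the vertices outside `W` enter the entropy bound.
One cop guards a ball of radius `r` if there are no cycles of length less than `4 r - 1`: with
`h` rounds to go all the vertices of the ball which the robber can still reach are at distance at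
most `h` from the cop, and a Helly type lemma shows that this can be maintained.
-/

/-- Robber to move: the cops at `c` can force the condition `T` after exactly `h` rounds against
the robber at `x`. In each round the robber moves (or stays), then the cops move (or stay). -/
def Force {V : Type*} (G : SimpleGraph V) {ι : Type*} (T : (ι → V) → V → Prop) :
    ℕ → (ι → V) → V → Prop
  | 0, c, x => T c x
  | h + 1, c, x => ∀ x', Step G x x' →
      ∃ c' : ι → V, (∀ i, Step G (c i) (c' i)) ∧ Force G T h c' x'

/-- `k` cops can clear `W`: from every common starting vertex `o` and for every large enough `m`,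
they can force, wherever the robber starts, that after exactly `m` rounds he is outside `W` or at
the vertex of a cop. -/
def Clears {V : Type*} (G : SimpleGraph V) (k : ℕ) (W : Finset V) : Prop :=
  ∀ o : V, ∃ M : ℕ, ∀ m, M ≤ m → ∀ x,
    Force G (fun (c : Fin k → V) x => x ∈ W → ∃ i, c i = x) m (fun _ => o) x

theorem force_play {V : Type*} (G : SimpleGraph V) {ι : Type*} (T : (ι → V) → V → Prop) (h : ℕ) :
    ∀ (c : ι → V) (x : V), Force G T h c x → Pool.Agent.TH524.Mey.Play G T h c x := by
  induction h with
  | zero => exact fun c x h1 => h1
  | succ h ih =>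
    intro c x h1 x' hx'
    obtain ⟨c', h2, h3⟩ := h1 x' hx'
    exact ⟨c', h2, ih c' x' h3⟩

/-- Let `G` be a connected graph on `n` vertices.
(1) If `k` cops can clear the set `W`, then `c(G) ≤ k + 81 √|V ∖ W| (log n + 1)`.
(2) Suppose that `G` has no cycle of length less than `4 r - 1` (this is no condition if `r = 1`).
Then `c(G) ≤ (2 n / b) log (log n + 1) + 82 √n + 81 √m (log n + 1)` for all `b > 0`, where `m` is
the number of vertices with fewer than `b` vertices at distance at most `r`.
(3) If moreover every vertex has at least `√n log (log n + 1)` vertices at distance at most `r`,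
then `c(G) ≤ 84 √n`. -/
theorem result {V : Type*} [Fintype V] [DecidableEq V] (G : SimpleGraph V) (hG : G.Connected) :
    (∀ (k : ℕ) (W : Finset V), Clears G k W →
      (copNumber G : ℝ) ≤ k + 81 * √(Wᶜ.card : ℝ) * (Real.log (Fintype.card V) + 1)) ∧
    ∀ r : ℕ, (∀ (a : V) (w : G.Walk a a), w.IsCycle → 4 * r - 1 ≤ w.length) →
      (∀ b : ℕ, 0 < b → (copNumber G : ℝ) ≤
        2 * Fintype.card V / b * Real.log (Real.log (Fintype.card V) + 1) +
        82 * √(Fintype.card V : ℝ) +
        81 * √((Finset.univ.filter fun z =>
          (Finset.univ.filter fun v => G.dist v z ≤ r).card < b).card : ℝ) *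
            (Real.log (Fintype.card V) + 1)) ∧
      ((∀ z, √(Fintype.card V : ℝ) * Real.log (Real.log (Fintype.card V) + 1) ≤
          ((Finset.univ.filter fun v => G.dist v z ≤ r).card : ℝ)) →
        (copNumber G : ℝ) ≤ 84 * √(Fintype.card V : ℝ)) := by
  refine ⟨fun k W hW => ?_, fun r hg => ⟨fun b hb => ?_, fun hball => ?_⟩⟩
  · refine Pool.Agent.TH524.Mey.clear_bound G hG k W fun o => ?_
    obtain ⟨M, hM⟩ := hW o
    exact ⟨M, fun m hm x => force_play G _ m _ x (hM m hm x)⟩
  · exact Pool.Agent.TH524.Mey.ball_bound G hG r hg b hb
  · exact Pool.Agent.TH524.Mey.ball_meyniel G hG r hg hball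

end Pool.Agent.Results.MP_964892_co.GuardedBalls
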