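import Pool.Agent.TH832.Mey.Growth

set_option autoImplicit false
open N6ef48c04

namespace Pool.Agent.Results.MP_964892_co.QuadraticGrowth

/-!
# Meyniel's bound for graphs of at most quadratic growth at large scales

While the territory of the robber has `m > 2 C n / (log n + 1) ^ 2` vertices it contains a shortest
path with at least `√(m / (2 C))` vertices, which one cop guards (Aigner and Fromme); the number of
these cops is at most `2 √(2 C n)`. The entropy bound `81 √m (log m + 1)` of the starting files then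
finishes the game in the small territory.
-/

/-- Let `G` be a connected graph on `n` vertices.
(1) If every ball of every radius `r` has at most `C ((r + 1) ^ 2 + n / (log n + 1) ^ 2)` vertices,
where `C ≥ 1`, then `c(G) ≤ 118 √(C n)`.
(2) If every ball of radius `R` has at most `n / (log n + 1) ^ 2` vertices, then
`c(G) ≤ 118 √n` or `c(G) ≤ 118 n / (R + 1)`. -/
theorem result {V : Type*} [Fintype V] (G : SimpleGraph V) (hG : G.Connected) :
    (∀ C : ℝ, 1 ≤ C →
      (∀ (v : V) (r : ℕ), ((Finset.univ.filter fun w => G.dist v w ≤ r).card : ℝ) ≤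
        C * (((r : ℝ) + 1) ^ 2 + Fintype.card V / (Real.log (Fintype.card V) + 1) ^ 2)) →
      (copNumber G : ℝ) ≤ 118 * √(C * Fintype.card V)) ∧
    ∀ R : ℕ,
      (∀ v : V, ((Finset.univ.filter fun w => G.dist v w ≤ R).card : ℝ) ≤
        Fintype.card V / (Real.log (Fintype.card V) + 1) ^ 2) →
      (copNumber G : ℝ) ≤ 118 * max √(Fintype.card V : ℝ) (Fintype.card V / ((R : ℝ) + 1)) := by
  refine ⟨fun C hC hball => Pool.Agent.TH832.Mey.growth_bound G hG C hC hball, fun R hball => ?_⟩
  have hne := hG.nonempty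
  have hn : (1 : ℝ) ≤ Fintype.card V := by exact_mod_cast Fintype.card_pos (α := V)
  set n : ℝ := (Fintype.card V : ℝ) with hndef
  have hR : (0 : ℝ) < (R : ℝ) + 1 := by positivity
  have h1 := Pool.Agent.TH832.Mey.growth_bound G hG (max 1 (n / ((R : ℝ) + 1) ^ 2))
    (le_max_left _ _) (by
      intro v r
      have hn0 : 0 ≤ n / (Real.log n + 1) ^ 2 := by positivity
      have hC1 : (1 : ℝ) ≤ max 1 (n / ((R : ℝ) + 1) ^ 2) := le_max_left _ _
      rcases le_or_gt r R with h | h
      · have h2 : (Finset.univ.filter fun w => G.dist v w ≤ r).card ≤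
            (Finset.univ.filter fun w => G.dist v w ≤ R).card := by
          refine Finset.card_le_card fun w hw => ?_
          rw [Finset.mem_filter] at hw ⊢
          exact ⟨hw.1, hw.2.trans h⟩
        have h3 : ((Finset.univ.filter fun w => G.dist v w ≤ r).card : ℝ) ≤
            n / (Real.log n + 1) ^ 2 := le_trans (by exact_mod_cast h2) (hball v)
        refine h3.trans ?_
        have h4 : 0 ≤ ((r : ℝ) + 1) ^ 2 := by positivity
        nlinarith
      · have h2 : ((Finset.univ.filter fun w => G.dist v w ≤ r).card : ℝ) ≤ n := by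
          rw [hndef]
          exact_mod_cast Finset.card_le_univ _
        refine h2.trans ?_
        have h3 : n ≤ max 1 (n / ((R : ℝ) + 1) ^ 2) * ((R : ℝ) + 1) ^ 2 := by
          have h4 := le_max_right 1 (n / ((R : ℝ) + 1) ^ 2)
          have h5 := mul_le_mul_of_nonneg_right h4 (sq_nonneg ((R : ℝ) + 1))
          rwa [div_mul_cancel₀ _ (by positivity)] at h5
        have h4 : ((R : ℝ) + 1) ^ 2 ≤ ((r : ℝ) + 1) ^ 2 := by
          have : (R : ℝ) ≤ r := by exact_mod_cast h.le
          gcongr
        have h5 : max 1 (n / ((R : ℝ) + 1) ^ 2) * ((R : ℝ) + 1) ^ 2 ≤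
            max 1 (n / ((R : ℝ) + 1) ^ 2) * ((r : ℝ) + 1) ^ 2 :=
          mul_le_mul_of_nonneg_left h4 (by linarith)
        have h6 : 0 ≤ max 1 (n / ((R : ℝ) + 1) ^ 2) * (n / (Real.log n + 1) ^ 2) := by positivity
        rw [mul_add]
        linarith)
  refine h1.trans ?_
  refine mul_le_mul_of_nonneg_left ?_ (by norm_num)
  rw [max_mul_of_nonneg _ _ (by linarith), one_mul]
  rcases le_total n (n / ((R : ℝ) + 1) ^ 2 * n) with h | h
  · rw [max_eq_right h]
    refine le_trans (le_of_eq ?_) (le_max_right _ _)
    have h2 : n / ((R : ℝ) + 1) ^ 2 * n = (n / ((R : ℝ) + 1)) ^ 2 := by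
      field_simp
    rw [h2, Real.sqrt_sq (by positivity)]
  · rw [max_eq_left h]
    exact le_max_left _ _

end Pool.Agent.Results.MP_964892_co.QuadraticGrowth
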