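import Pool.Agent.TH355.TG.Final
import Pool.Agent.H594R2.Mey2.Graph

set_option autoImplicit false
open N6ef48c04

namespace Pool.Agent.Results.MP_964892_co.TreewidthDiameter

/-!
The cop number, tree decompositions and the diameter. For a connected graph on `n` vertices of
diameter at most `D` with a tree decomposition whose bags have at most `w` vertices,
`c(G) = O(√(w (D + 1) log log n) log n)`; before, `c(G) ≤ tw(G) / 2 + 1` was known. More generally it
is enough that the adhesion sets of the decomposition lie in sets `A t` of at most `w` vertices and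
that the components of the graphs `G[bag t] - A t` have small cop number. So Meyniel's bound
`c(G) = O(√n)` can fail for graphs of bounded diameter only if they have treewidth more than
`n / (log ^ 2 n log log n)`, and even then only if sets of so few vertices do not cut them into
pieces of `n / log ^ 2 n` vertices.

Proof idea. The entropy method of the starting files (`H594R2.Mey2`, `W149.VD`), which catches the
robber at the end of a game of fixed length, is carried out for an abstract last phase. The ends of
the game are the pairs (vertex `z` of `A`, number `i` of rounds left when the robber is at `z`), for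
the last `H` rounds. If a proportion `a` of the ends is not yet covered, new cops can reduce it to
`a ^ (5/4)` in `D` rounds. So `O(√(w H) log n)` cops can, after a preparation of `O(D log log n)`
rounds, guard a set of `w` vertices during `H` consecutive rounds. This is possible for `H` larger than the
preparation of another team. So two teams, which relieve each other, sweep the tree, and they guard
the last set `A t` as long as is needed for `q` further cops to win in a component.
-/

/-- A tree decomposition of the graph `G`: a tree on the nodes `ι` and a bag of vertices of `G`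
for each node, such that every edge of `G` lies in some bag, and for every vertex `v` the nodes
whose bags contain `v` induce a connected (in particular non-empty) subgraph of the tree. -/
structure TreeDecomposition {V : Type*} (G : SimpleGraph V) (ι : Type*) where
  /-- the tree -/
  tree : SimpleGraph ι
  /-- it is a tree -/
  isTree : tree.IsTree
  /-- the bags -/
  bag : ι → Finset V
  /-- each edge is contained in a bag -/
  edge_mem : ∀ u v, G.Adj u v → ∃ t, u ∈ bag t ∧ v ∈ bag t
  /-- the nodes whose bags contain a given vertex form a non-empty subtree -/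
  connected : ∀ v, (tree.induce {t | v ∈ bag t}).Connected

/-- Let `G` be a connected graph on `n` vertices whose distances are at most `D`, with a tree
decomposition with the bags `bag t`, and let `A t` be sets of at most `w` vertices such that `A t`
contains all the adhesion sets `bag t ∩ bag s`, for `s` adjacent to `t`.

If all the components of the graphs `G[bag t] - A t` have cop number at most `q`, then
`c(G) ≤ 4000 √(w (D + 1) (log (log n + 1) + 1)) (log n + 1) + q`. (If the bags have at most `w`
vertices, one can take `A t = bag t` and `q = 0`.)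

If `w (D + 1) (log (log n + 1) + 1) (log n + 1) ^ 2 ≤ n` and these components have at most `s`
vertices, where `s (log n + 1) ^ 2 ≤ n`, then `c(G) ≤ 4081 √n`. -/
theorem result {V ι : Type*} [Fintype V] [Finite ι] (G : SimpleGraph V) (hG : G.Connected)
    (td : TreeDecomposition G ι) (A : ι → Finset V)
    (hA : ∀ t s, td.tree.Adj t s → ∀ v, v ∈ td.bag t → v ∈ td.bag s → v ∈ A t)
    (D w : ℕ) (hD : ∀ u v, G.dist u v ≤ D) (hw : ∀ t, (A t).card ≤ w) :
    (∀ q : ℕ, (∀ t, ∀ K : (G.induce {v | v ∈ td.bag t ∧ v ∉ A t}).ConnectedComponent,
        copNumber K.toSimpleGraph ≤ q) →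
      (copNumber G : ℝ) ≤
        4000 * √(w * (D + 1) * (Real.log (Real.log (Fintype.card V) + 1) + 1)) *
          (Real.log (Fintype.card V) + 1) + q) ∧
    (∀ s : ℕ, (∀ t, ∀ K : (G.induce {v | v ∈ td.bag t ∧ v ∉ A t}).ConnectedComponent,
        Nat.card K ≤ s) →
      (w : ℝ) * (D + 1) * (Real.log (Real.log (Fintype.card V) + 1) + 1) *
        (Real.log (Fintype.card V) + 1) ^ 2 ≤ Fintype.card V →
      (s : ℝ) * (Real.log (Fintype.card V) + 1) ^ 2 ≤ Fintype.card V →
      (copNumber G : ℝ) ≤ 4081 * √(Fintype.card V)) := by
  have h1 : ∀ q : ℕ, (∀ t, ∀ K : (G.induce {v | v ∈ td.bag t ∧ v ∉ A t}).ConnectedComponent,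
        copNumber K.toSimpleGraph ≤ q) →
      (copNumber G : ℝ) ≤
        4000 * √(w * (D + 1) * (Real.log (Real.log (Fintype.card V) + 1) + 1)) *
          (Real.log (Fintype.card V) + 1) + q := by
    intro q hq
    exact Pool.Agent.TH355.TG.tree_bound G hG
      ⟨td.tree, td.isTree, td.bag, td.edge_mem, td.connected⟩ A hA D w q hD hw hq
  refine ⟨h1, fun s hs hwn hsn => ?_⟩
  have : Nonempty V := hG.nonempty
  have hn1 : (1 : ℝ) ≤ Fintype.card V := by exact_mod_cast Fintype.card_pos
  set n : ℝ := (Fintype.card V : ℝ) with hn
  have hlog : 0 ≤ Real.log n := Real.log_nonneg hn1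
  set Λ : ℝ := Real.log n + 1 with hΛ
  have hΛ1 : 1 ≤ Λ := by linarith
  -- the components
  have hq : ∀ t, ∀ K : (G.induce {v | v ∈ td.bag t ∧ v ∉ A t}).ConnectedComponent,
      copNumber K.toSimpleGraph ≤ ⌊81 * √n⌋₊ := by
    intro t K
    apply Nat.le_floor
    have : Fintype K := Fintype.ofFinite K
    have hconn : K.toSimpleGraph.Connected := K.connected_toSimpleGraph
    have h2 := Pool.Agent.H594R2.Mey2.graph_bound K.toSimpleGraph hconn
    have hKs : (Fintype.card K : ℝ) ≤ s := by
      have := hs t K
      rw [Nat.card_eq_fintype_card] at this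
      exact_mod_cast this
    have hK1 : (1 : ℝ) ≤ Fintype.card K := by
      have : Nonempty K := hconn.nonempty
      exact_mod_cast Fintype.card_pos
    set k : ℝ := (Fintype.card K : ℝ) with hk
    have hk2 : k * Λ ^ 2 ≤ n := (mul_le_mul_of_nonneg_right hKs (by positivity)).trans hsn
    have hΛ2 : 1 ≤ Λ ^ 2 := one_le_pow₀ hΛ1
    have hkn : k ≤ n := by
      refine le_trans ?_ hk2
      nlinarith
    have hlk : Real.log k + 1 ≤ Λ := by
      have := Real.log_le_log (by linarith) hkn
      linarith
    have hlk0 : 0 ≤ Real.log k + 1 := by
      have := Real.log_nonneg hK1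
      linarith
    have h3 : √k * (Real.log k + 1) ≤ √n := by
      apply Real.le_sqrt_of_sq_le
      rw [mul_pow, Real.sq_sqrt (by linarith)]
      calc k * (Real.log k + 1) ^ 2 ≤ k * Λ ^ 2 := by gcongr
        _ ≤ n := hk2
    calc (copNumber K.toSimpleGraph : ℝ) ≤ 81 * √k * (Real.log k + 1) := h2
      _ = 81 * (√k * (Real.log k + 1)) := by ring
      _ ≤ 81 * √n := by linarith
  have h2 := h1 _ hq
  have h3 : (⌊81 * √n⌋₊ : ℝ) ≤ 81 * √n := Nat.floor_le (by positivity)
  have hlog1 : 0 ≤ Real.log Λ := Real.log_nonneg hΛ1
  have h4 : √(w * (D + 1) * (Real.log Λ + 1)) * Λ ≤ √n := by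
    apply Real.le_sqrt_of_sq_le
    rw [mul_pow, Real.sq_sqrt (by positivity)]
    exact hwn
  linarith

end Pool.Agent.Results.MP_964892_co.TreewidthDiameter
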